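import Mathlib
import Pool.Agent.V11215.Plastic

/-!
MP_f81d0d_gt, Q1 (positive answer): the `ℓ₁` plane, and more generally every separable Banach space of
dimension at least two, has a dense plastic subgroup.
-/

set_option autoImplicit false

namespace Pool.Agent.Results.MP_f81d0d_gt.DensePlasticSubgroup

open Set Metric Filter Topology
open Pool.Agent.V11215.Plastic
open scoped Cardinal

/-- A metric space is plastic if every non-expansive bijection of it onto itself is an isometry. -/
def IsPlastic (X : Type) [MetricSpace X] : Prop :=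
  ∀ f : X → X, Function.Bijective f → (∀ x y, dist (f x) (f y) ≤ dist x y) →
    ∀ x y, dist (f x) (f y) = dist x y

/-! ### Set theory -/

theorem exists_rec {ι : Type} [LinearOrder ι] [WellFoundedLT ι] {V : Type}
    (Φ : ∀ i : ι, (∀ j, j < i → V) → V → Prop) (h : ∀ i prev, ∃ y, Φ i prev y) :
    ∃ x : ι → V, ∀ i, Φ i (fun j _ => x j) (x i) := by
  choose g hg using h
  let x : ι → V := WellFounded.fix (C := fun _ => V) wellFounded_lt (fun i IH => g i IH)
  refine ⟨x, fun i => ?_⟩
  have : x i = g i (fun j _ => x j) := WellFounded.fix_eq _ _ _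
  rw [this]
  exact hg _ _

theorem avoid {T : Type} (hT : #T < 𝔠) (R : T → (ℕ → Bool) → Prop)
    (hR : ∀ t a b, R t a → R t b → a = b) : ∃ a, ∀ t, ¬ R t a := by
  by_contra hcon
  push Not at hcon
  choose t ht using hcon
  have hinj : Function.Injective t := fun a b hab => hR (t a) a b (ht a) (hab ▸ ht b)
  have h1 := Cardinal.mk_le_of_injective hinj
  have h2 : #(ℕ → Bool) = 𝔠 := by simp
  rw [h2] at h1
  exact absurd hT (not_lt.2 h1)

variable {E : Type} [NormedAddCommGroup E] [NormedSpace ℝ E]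

theorem card_span (s : Set E) (hs : #s < 𝔠) : #(Submodule.span ℤ s) < 𝔠 := by
  rcases s.eq_empty_or_nonempty with rfl | hne
  · rw [Submodule.span_empty]
    refine lt_of_le_of_lt ?_ (Cardinal.nat_lt_continuum 1)
    rw [Nat.cast_one, Cardinal.le_one_iff_subsingleton]
    infer_instance
  · have : Nonempty s := hne.to_subtype
    rw [Finsupp.span_eq_range_linearCombination]
    refine lt_of_le_of_lt (Cardinal.mk_range_le (f := Finsupp.linearCombination ℤ ((↑) : s → E))) ?_
    rw [Cardinal.mk_finsupp_lift_of_infinite']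
    simp only [Cardinal.lift_id, Cardinal.mk_int, max_lt_iff]
    exact ⟨hs, Cardinal.aleph0_lt_continuum⟩

theorem step {F : E → E} {P : (ℕ → Bool) → E}
    (hP : ∀ n : ℤ, ∀ a b, F (P a) - (n : ℝ) • P a = F (P b) - (n : ℝ) • P b → a = b)
    (hP' : ∀ a b, P a = P b → a = b) (S W : Set E) (hS : #S < 𝔠) (hW : #W < 𝔠) :
    ∃ y : E, (∀ n : ℤ, F y - (n : ℝ) • y ∉ Submodule.span ℤ S) ∧
      ∀ w ∈ W, ∀ n : ℤ, n ≠ 0 → w - (n : ℝ) • y ∉ Submodule.span ℤ S := by
  have hS' := card_span S hS
  have hℤ : #ℤ < 𝔠 := by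
    rw [Cardinal.mk_int]
    exact Cardinal.aleph0_lt_continuum
  have hc := Cardinal.aleph0_le_continuum
  have hT : #((ℤ × Submodule.span ℤ S) ⊕ (W × {n : ℤ // n ≠ 0} × Submodule.span ℤ S)) < 𝔠 := by
    rw [Cardinal.mk_sum, Cardinal.mk_prod, Cardinal.mk_prod, Cardinal.mk_prod]
    simp only [Cardinal.lift_id]
    apply Cardinal.add_lt_of_lt hc
    · exact Cardinal.mul_lt_of_lt hc hℤ hS'
    · apply Cardinal.mul_lt_of_lt hc hW
      apply Cardinal.mul_lt_of_lt hc _ hS'
      exact (Cardinal.mk_subtype_le _).trans_lt hℤ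
  obtain ⟨a, ha⟩ := avoid hT (fun t a =>
    match t with
    | Sum.inl (n, h) => F (P a) - (n : ℝ) • P a = h
    | Sum.inr (w, n, h) => (w : E) - ((n : ℤ) : ℝ) • P a = h) (by
      rintro (⟨n, h⟩ | ⟨w, n, h⟩) a b h1 h2
      · exact hP n a b (h1.trans h2.symm)
      · apply hP'
        have h3 : (w : E) - ((n : ℤ) : ℝ) • P a = (w : E) - ((n : ℤ) : ℝ) • P b := h1.trans h2.symm
        have h4 : ((n : ℤ) : ℝ) • P a = ((n : ℤ) : ℝ) • P b := sub_right_injective h3
        have h5 : ((n : ℤ) : ℝ) ≠ 0 := by exact_mod_cast n.2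
        exact smul_right_injective E h5 h4)
  refine ⟨P a, ?_, ?_⟩
  · intro n hn
    exact ha (Sum.inl (n, ⟨_, hn⟩)) rfl
  · intro w hw n hn0 hn
    exact ha (Sum.inr (⟨w, hw⟩, ⟨n, hn0⟩, ⟨_, hn⟩)) rfl

theorem decompose {ι : Type} [LinearOrder ι] (D : Set E) (x : ι → E) {z : E}
    (hz : z ∈ Submodule.span ℤ (D ∪ range x)) : z ∈ Submodule.span ℤ D ∨
      ∃ (m : ι) (n : ℤ), n ≠ 0 ∧ z - (n : ℝ) • x m ∈ Submodule.span ℤ (D ∪ x '' Iio m) := by
  classical
  have h1 : ∃ T : Finset ι, z ∈ Submodule.span ℤ (D ∪ x '' (T : Set ι)) := by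
    induction hz using Submodule.span_induction with
    | mem z hz =>
      rcases hz with hz | ⟨k, rfl⟩
      · exact ⟨∅, Submodule.subset_span (Or.inl hz)⟩
      · exact ⟨{k}, Submodule.subset_span (Or.inr ⟨k, by simp, rfl⟩)⟩
    | zero => exact ⟨∅, Submodule.zero_mem _⟩
    | add a b _ _ ha hb =>
      obtain ⟨T1, h1⟩ := ha
      obtain ⟨T2, h2⟩ := hb
      refine ⟨T1 ∪ T2, Submodule.add_mem _ ?_ ?_⟩
      · refine Submodule.span_mono ?_ h1
        apply union_subset_union_right
        apply image_mono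
        simp
      · refine Submodule.span_mono ?_ h2
        apply union_subset_union_right
        apply image_mono
        simp
    | smul c a _ ha =>
      obtain ⟨T, h1⟩ := ha
      exact ⟨T, Submodule.smul_mem _ _ h1⟩
  obtain ⟨T, hT⟩ := h1
  clear hz
  induction T using Finset.induction_on_max generalizing z with
  | empty =>
    left
    simpa using hT
  | insert m T hm ih =>
    have e : D ∪ x '' ((insert m T : Finset ι) : Set ι) = insert (x m) (D ∪ x '' (T : Set ι)) := by
      rw [Finset.coe_insert, image_insert_eq, union_insert]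
    rw [e, Submodule.mem_span_insert] at hT
    obtain ⟨n, w, hw, rfl⟩ := hT
    by_cases hn : n = 0
    · subst hn
      rw [zero_smul, zero_add]
      exact ih hw
    · right
      refine ⟨m, n, hn, ?_⟩
      rw [Int.cast_smul_eq_zsmul, add_sub_cancel_left]
      refine Submodule.span_mono ?_ hw
      apply union_subset_union_right
      apply image_mono
      intro k hk
      exact hm k hk

/-- The transfinite construction. -/
theorem construct {ι : Type} [LinearOrder ι] [WellFoundedLT ι] (hι : ∀ i : ι, #(Iio i) < 𝔠)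
    (D : Set E) (hD : D.Countable) (F : ι → E → E) (P : ι → (ℕ → Bool) → E)
    (hP : ∀ i, ∀ n : ℤ, ∀ a b,
      F i (P i a) - (n : ℝ) • P i a = F i (P i b) - (n : ℝ) • P i b → a = b)
    (hP' : ∀ i, ∀ a b, P i a = P i b → a = b) :
    ∃ G : Submodule ℤ E, D ⊆ G ∧ ∀ i, ∃ x ∈ G, F i x ∉ G := by
  have hc := Cardinal.aleph0_le_continuum
  have card1 : ∀ (i : ι) (prev : ∀ j, j < i → E),
      #({z | ∃ (j : ι) (hj : j < i), prev j hj = z} : Set E) < 𝔠 := by
    intro i prev
    have : ({z | ∃ (j : ι) (hj : j < i), prev j hj = z} : Set E) =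
        range (fun j : Iio i => prev j.1 j.2) := by
      ext z
      constructor
      · rintro ⟨j, hj, rfl⟩
        exact ⟨⟨j, hj⟩, rfl⟩
      · rintro ⟨⟨j, hj⟩, rfl⟩
        exact ⟨j, hj, rfl⟩
    rw [this]
    exact Cardinal.mk_range_le.trans_lt (hι i)
  have card2 : ∀ (i : ι) (prev : ∀ j, j < i → E),
      #({z | ∃ (j : ι) (hj : j < i), F j (prev j hj) = z} : Set E) < 𝔠 := by
    intro i prev
    exact card1 i (fun j hj => F j (prev j hj))
  obtain ⟨x, hx⟩ := exists_rec (fun (i : ι) (prev : ∀ j, j < i → E) (y : E) =>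
    (∀ n : ℤ, F i y - (n : ℝ) • y ∉
      Submodule.span ℤ (D ∪ {z | ∃ (j : ι) (hj : j < i), prev j hj = z})) ∧
    ∀ w ∈ ({z | ∃ (j : ι) (hj : j < i), F j (prev j hj) = z} : Set E), ∀ n : ℤ, n ≠ 0 →
      w - (n : ℝ) • y ∉ Submodule.span ℤ (D ∪ {z | ∃ (j : ι) (hj : j < i), prev j hj = z}))
    (fun i prev => step (hP i) (hP' i) _ _
      ((Cardinal.mk_union_le _ _).trans_lt (Cardinal.add_lt_of_lt hc
        ((Cardinal.le_aleph0_iff_set_countable.2 hD).trans_lt Cardinal.aleph0_lt_continuum)
        (card1 i prev))) (card2 i prev))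
  have himg : ∀ i : ι, ({z | ∃ (j : ι) (_ : j < i), x j = z} : Set E) = x '' Iio i := by
    intro i
    ext z
    constructor
    · rintro ⟨j, hj, rfl⟩
      exact ⟨j, hj, rfl⟩
    · rintro ⟨j, hj, rfl⟩
      exact ⟨j, hj, rfl⟩
  simp only [himg] at hx
  refine ⟨Submodule.span ℤ (D ∪ range x), fun z hz => Submodule.subset_span (Or.inl hz), ?_⟩
  intro i
  refine ⟨x i, Submodule.subset_span (Or.inr ⟨i, rfl⟩), ?_⟩
  intro hmem
  obtain ⟨hb, _⟩ := hx i
  rcases decompose D x hmem with h1 | ⟨m, n, hn, h1⟩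
  · apply hb 0
    rw [Int.cast_zero, zero_smul, sub_zero]
    exact Submodule.span_mono subset_union_left h1
  · rcases lt_trichotomy m i with hmi | rfl | hmi
    · apply hb 0
      rw [Int.cast_zero, zero_smul, sub_zero]
      have h2 : x m ∈ Submodule.span ℤ (D ∪ x '' Iio i) :=
        Submodule.subset_span (Or.inr ⟨m, hmi, rfl⟩)
      have h3 : F i (x i) - (n : ℝ) • x m ∈ Submodule.span ℤ (D ∪ x '' Iio i) := by
        refine Submodule.span_mono ?_ h1
        apply union_subset_union_right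
        apply image_mono
        exact Iio_subset_Iio hmi.le
      have h4 := Submodule.add_mem _ h3 (Submodule.smul_mem _ n h2)
      rw [← Int.cast_smul_eq_zsmul ℝ, sub_add_cancel] at h4
      exact h4
    · exact hb n h1
    · exact (hx m).2 (F i (x i)) ⟨i, hmi, rfl⟩ n hn h1

/-! ### Counting the non-expansive maps -/

theorem card_E [TopologicalSpace.SeparableSpace E] : #E ≤ 𝔠 := by
  have hd := TopologicalSpace.denseRange_denseSeq E
  have h1 : ∀ (x : E) (n : ℕ), ∃ k, dist x (TopologicalSpace.denseSeq E k) < 1 / ((n : ℝ) + 1) :=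
    fun x n => hd.exists_dist_lt x (by positivity)
  choose k hk using h1
  have hinj : Function.Injective k := by
    intro x y hxy
    rw [← dist_le_zero]
    apply le_of_forall_pos_lt_add
    intro ε hε
    rw [zero_add]
    obtain ⟨n, hn⟩ := exists_nat_one_div_lt (half_pos hε)
    have h2 := hk x n
    have h3 := hk y n
    rw [← hxy] at h3
    have h4 := dist_triangle_right x y (TopologicalSpace.denseSeq E (k x n))
    linarith
  have h2 := Cardinal.mk_le_of_injective hinj
  refine h2.trans ?_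
  simp

theorem card_B [TopologicalSpace.SeparableSpace E] : #{F : E → E // NonExp F ∧ ¬ Form F} ≤ 𝔠 := by
  have hd := TopologicalSpace.denseRange_denseSeq E
  have hinj : Function.Injective (fun (F : {F : E → E // NonExp F ∧ ¬ Form F}) (n : ℕ) =>
      F.1 (TopologicalSpace.denseSeq E n)) := by
    intro F G h
    apply Subtype.ext
    apply hd.equalizer F.2.1.continuous G.2.1.continuous
    exact h
  refine (Cardinal.mk_le_of_injective hinj).trans ?_
  rw [Cardinal.mk_arrow, Cardinal.lift_id, Cardinal.lift_id, Cardinal.mk_nat,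
    ← Cardinal.continuum_power_aleph0]
  exact Cardinal.power_le_power_right card_E

/-! ### The theorem -/

theorem plastic_of (hnt : Nontrivial E) [CompleteSpace E] (G : AddSubgroup E)
    (hG : Dense (G : Set E)) (h : ∀ F : E → E, NonExp F → ¬ Form F → ∃ x ∈ G, F x ∉ G) :
    IsPlastic G := by
  intro f hf hfd
  have huc : UniformContinuous (fun g : (G : Set E) => ((f g : G) : E)) := by
    have : LipschitzWith 1 (fun g : (G : Set E) => ((f g : G) : E)) := by
      apply LipschitzWith.of_dist_le_mul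
      intro x y
      rw [NNReal.coe_one, one_mul]
      exact hfd x y
    exact this.uniformContinuous
  set F : E → E := hG.extend (fun g : (G : Set E) => ((f g : G) : E)) with hFdef
  have hFG : ∀ g : G, F g = f g := fun g => hG.extend_of_ind huc g
  have hFc : Continuous F := (hG.uniformContinuous_extend huc).continuous
  have hFn : NonExp F := by
    have hcl : IsClosed {p : E × E | ‖F p.1 - F p.2‖ ≤ ‖p.1 - p.2‖} :=
      isClosed_le (by fun_prop) (by fun_prop)
    have hdense : Dense ((G : Set E) ×ˢ (G : Set E)) := hG.prod hG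
    have hsub : (G : Set E) ×ˢ (G : Set E) ⊆ {p : E × E | ‖F p.1 - F p.2‖ ≤ ‖p.1 - p.2‖} := by
      rintro ⟨a, b⟩ ⟨ha, hb⟩
      have h1 := hfd ⟨a, ha⟩ ⟨b, hb⟩
      rw [Subtype.dist_eq, Subtype.dist_eq, ← hFG, ← hFG, dist_eq_norm, dist_eq_norm] at h1
      exact h1
    intro x y
    have h1 : closure ((G : Set E) ×ˢ (G : Set E)) ⊆ _ := closure_minimal hsub hcl
    rw [hdense.closure_eq] at h1
    exact h1 (mem_univ (x, y))
  have hform : Form F := by
    by_contra hno
    obtain ⟨x, hx, hFx⟩ := h F hFn hno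
    apply hFx
    rw [hFG ⟨x, hx⟩]
    exact (f ⟨x, hx⟩).2
  obtain ⟨n, c, hnc⟩ := hform
  -- two distinct points of `G`
  obtain ⟨a, b, hab⟩ : ∃ a b : G, a ≠ b := by
    obtain ⟨u, v, huv⟩ := exists_pair_ne E
    obtain ⟨U, V, hU, hV, huU, hvV, hUV⟩ := t2_separation huv
    obtain ⟨a, haU, haG⟩ := hG.inter_open_nonempty U hU ⟨u, huU⟩
    obtain ⟨b, hbV, hbG⟩ := hG.inter_open_nonempty V hV ⟨v, hvV⟩
    refine ⟨⟨a, haG⟩, ⟨b, hbG⟩, ?_⟩
    intro hab
    have hab' : a = b := congrArg Subtype.val hab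
    rw [hab'] at haU
    exact disjoint_left.1 hUV haU hbV
  have hdist : ∀ x y : G, dist (f x) (f y) = |(n : ℝ)| * dist x y := by
    intro x y
    rw [Subtype.dist_eq, Subtype.dist_eq, ← hFG, ← hFG, hnc, hnc, dist_eq_norm, dist_eq_norm]
    have e : (n : ℝ) • (x : E) + c - ((n : ℝ) • (y : E) + c) = (n : ℝ) • ((x : E) - y) := by
      rw [smul_sub]
      abel
    rw [e, norm_smul, Real.norm_eq_abs]
  have hpos : 0 < dist a b := dist_pos.2 hab
  have hn1 : |(n : ℝ)| ≤ 1 := by
    have h1 := hfd a b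
    rw [hdist] at h1
    by_contra hlt
    push Not at hlt
    nlinarith
  have hn0 : n ≠ 0 := by
    rintro rfl
    have h1 := hdist a b
    rw [Int.cast_zero, abs_zero, zero_mul] at h1
    exact hab (hf.1 (dist_eq_zero.1 h1))
  have hn2 : |(n : ℝ)| = 1 := by
    apply le_antisymm hn1
    have h1 : (1 : ℤ) ≤ |n| := Int.one_le_abs hn0
    exact_mod_cast h1
  intro x y
  rw [hdist, hn2, one_mul]

/-- Every separable real Banach space of dimension at least two has a dense plastic subgroup. -/
theorem general (E : Type) [NormedAddCommGroup E] [NormedSpace ℝ E] [CompleteSpace E]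
    [TopologicalSpace.SeparableSpace E] (hE : 1 < Module.rank ℝ E) :
    ∃ G : AddSubgroup E, Dense (G : Set E) ∧ IsPlastic G := by
  classical
  have hnt : Nontrivial E := (rank_pos_iff_nontrivial (R := ℝ)).1 (zero_lt_one.trans hE)
  set D : Set E := range (TopologicalSpace.denseSeq E) with hDdef
  have hDd : Dense D := TopologicalSpace.denseRange_denseSeq E
  have hDc : D.Countable := countable_range _
  by_cases hB : Nonempty {F : E → E // NonExp F ∧ ¬ Form F}
  · have hle : #{F : E → E // NonExp F ∧ ¬ Form F} ≤ #((Cardinal.continuum.{0}).ord.ToType) := by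
      rw [Cardinal.mk_ord_toType]
      exact card_B
    obtain ⟨e⟩ := Cardinal.le_def _ _ |>.1 hle
    let B : (Cardinal.continuum.{0}).ord.ToType → {F : E → E // NonExp F ∧ ¬ Form F} := Function.invFun e
    have hBs : Function.Surjective B := Function.invFun_surjective e.injective
    choose P hP hP' using fun i => exists_cantor' hE (B i).2.1 (B i).2.2
    obtain ⟨G, hDG, hG⟩ := construct (fun i : (Cardinal.continuum.{0}).ord.ToType => by
      have := Cardinal.mk_Iio_lt i (by simp)
      simpa using this) D hDc (fun i => (B i).1) P hP hP'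
    refine ⟨G.toAddSubgroup, hDd.mono hDG, ?_⟩
    apply plastic_of hnt _ (hDd.mono hDG)
    intro F hF hform
    obtain ⟨i, hi⟩ := hBs ⟨F, hF, hform⟩
    obtain ⟨x, hx, hFx⟩ := hG i
    rw [hi] at hFx
    exact ⟨x, hx, hFx⟩
  · refine ⟨(Submodule.span ℤ D).toAddSubgroup, hDd.mono Submodule.subset_span, ?_⟩
    apply plastic_of hnt _ (hDd.mono Submodule.subset_span)
    intro F hF hform
    exact absurd ⟨⟨F, hF, hform⟩⟩ hB

/-- The `ℓ₁` plane: `ℝ²` with the norm `|x| + |y|`. -/
abbrev L1Plane : Type := WithLp 1 (ℝ × ℝ)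

/-- The norm of the `ℓ₁` plane is `|x| + |y|`. -/
theorem norm_L1Plane (x : L1Plane) : ‖x‖ = |x.fst| + |x.snd| := by
  rw [WithLp.prod_norm_eq_add (by norm_num)]
  simp

/-- The `ℓ₁` plane has a dense plastic subgroup, and so has every separable real Banach space of
dimension at least two. -/
theorem result : (∃ G : AddSubgroup L1Plane, Dense (G : Set L1Plane) ∧ IsPlastic G) ∧
    ∀ (E : Type) [NormedAddCommGroup E] [NormedSpace ℝ E] [CompleteSpace E]
      [TopologicalSpace.SeparableSpace E], 1 < Module.rank ℝ E →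
      ∃ G : AddSubgroup E, Dense (G : Set E) ∧ IsPlastic G := by
  refine ⟨general L1Plane ?_, fun E _ _ _ _ hE => general E hE⟩
  have h : Module.rank ℝ L1Plane = Module.rank ℝ (ℝ × ℝ) :=
    (WithLp.linearEquiv 1 ℝ (ℝ × ℝ)).rank_eq
  rw [h]
  rw [rank_prod', Module.rank_self]
  norm_num

end Pool.Agent.Results.MP_f81d0d_gt.DensePlasticSubgroup
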